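import Pool.Agent.H28.N6.Lib

set_option autoImplicit false
open MeasureTheory Matrix Pool.Agent.H28.N6

namespace Pool.Agent.H29.N6D

theorem pf_KER (hDER : T_DER) : T_KER := by
  intro F _ n A B t v hA hB hv h0 hq
  obtain ⟨i, hi⟩ : ∃ i, v i ≠ 0 := by
    by_contra hc
    push Not at hc
    exact hv (funext hc)
  cases n with
  | zero => exact i.elim0
  | succ m =>
    -- an invertible matrix with first column `v`
    let M0 : Matrix (Fin (m + 1)) (Fin (m + 1)) F := (1 : Matrix _ _ F).updateCol i v
    let M : Matrix (Fin (m + 1)) (Fin (m + 1)) F := M0.submatrix id (Equiv.swap 0 i)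
    have hM0 : M0.det = v i := by
      have h1 := Matrix.cramer_apply (1 : Matrix (Fin (m + 1)) (Fin (m + 1)) F) v i
      rw [Matrix.cramer_one] at h1
      exact h1.symm
    have hM : M.det ≠ 0 := by
      have h1 : M.det = _ := Matrix.det_permute' (Equiv.swap 0 i) M0
      rw [h1, hM0]
      refine mul_ne_zero ?_ hi
      rcases Int.units_eq_one_or (Equiv.Perm.sign (Equiv.swap 0 i)) with h | h <;> simp [h]
    have hcol : ∀ r, M r 0 = v r := by
      intro r
      show M0 r (Equiv.swap 0 i 0) = v r
      rw [Equiv.swap_apply_left]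
      simp [M0]
    have hMv : M *ᵥ (Pi.single 0 1) = v := by
      ext r
      rw [Matrix.mulVec_single_one]
      exact hcol r
    -- the transformed pencil
    have hcol0 : ∀ r, (Mᵀ * (A + t • B) * M) r 0 = 0 := by
      intro r
      have h1 : (Mᵀ * (A + t • B) * M) *ᵥ (Pi.single 0 1) = 0 := by
        rw [← mulVec_mulVec, ← mulVec_mulVec, hMv, h0, mulVec_zero]
      have h2 := congrFun h1 r
      rw [Matrix.mulVec_single_one] at h2
      exact h2
    have hsym : (Mᵀ * (A + t • B) * M)ᵀ = Mᵀ * (A + t • B) * M := by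
      apply symm_congr
      rw [transpose_add, transpose_smul, hA, hB]
    have hrow0 : ∀ r, (Mᵀ * (A + t • B) * M) 0 r = 0 := by
      intro r
      have h1 := congrFun (congrFun hsym r) 0
      rw [transpose_apply] at h1
      rw [h1]
      exact hcol0 r
    have h00 : (Mᵀ * B * M) 0 0 = 0 := by
      have h1 : qf (Mᵀ * B * M) (Pi.single 0 1) = 0 := by
        rw [qf_congr, hMv, hq]
      unfold qf at h1
      rw [Matrix.mulVec_single_one] at h1
      simpa using h1
    have h3 := (hDER F m (Mᵀ * (A + t • B) * M) (Mᵀ * B * M) hrow0 hcol0).2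
    rw [h00, zero_mul, dp_congr_eval, (dp_shift_eval A B t).2] at h3
    exact (mul_eq_zero.1 h3).resolve_left (pow_ne_zero 2 hM)

end Pool.Agent.H29.N6D
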